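import Pool.Agent.Helper15.BP.Main
import Pool.Agent.Helper25.BP.Reg
import Pool.Agent.Helper73.BG.MFold

/-!
# Sets of small doubling in finite abelian 2-groups

If `|A + A| ≤ K |A|` then `A` has density at least `K ^ (-2)` in a coset of a subgroup `V` with
`log [G : V + 2G] ≤ C (log |G| - log |A|)`.
-/

set_option autoImplicit false

namespace Pool.Agent.Helper30.DB

open Pool.Agent.Helper15.BP Pool.Agent.Helper25.BP

variable {G : Type} [AddCommGroup G] [Finite G]

/-- some coset of `V` contains many points of `A` -/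
theorem exists_coset (A : Set G) (hA : A.Nonempty) (V : AddSubgroup G) :
    ∃ x : G, (piece A V x).Nonempty ∧
      Real.log (Nat.card V) - ((unif A hA).D ⊥ - (unif A hA).D V) ≤
        Real.log (piece A V x).ncard := by
  classical
  obtain ⟨x, hx⟩ := Finite.exists_max fun x : G => (piece A V x).ncard
  obtain ⟨a, ha⟩ := hA
  have hne : (piece A V a).Nonempty := ⟨0, by
    show a + ((0 : V) : G) ∈ A
    rw [AddSubgroup.coe_zero, add_zero]
    exact ha⟩
  have hpos : 0 < (piece A V x).ncard :=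
    lt_of_lt_of_le ((Set.ncard_pos (Set.toFinite _)).2 hne) (hx a)
  refine ⟨x, (Set.ncard_pos (Set.toFinite _)).1 hpos, ?_⟩
  set X := unif A ⟨a, ha⟩ with hX
  have h1 := Ent_le_add_log X.hw X.Y
    (fun o => (X.J o, (QuotientAddGroup.mk (X.Y o) : G ⧸ V))) (piece A V x).ncard (fun o => by
      have h3 : {b : G | ∃ o', (X.J o', (QuotientAddGroup.mk (X.Y o') : G ⧸ V)) =
          (X.J o, (QuotientAddGroup.mk (X.Y o) : G ⧸ V)) ∧ X.Y o' = b} ⊆
          (fun v : V => X.Y o + (v : G)) '' piece A V (X.Y o) := by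
        rintro b ⟨o', h4, rfl⟩
        have h5 := (Fam.mk_eq_iff V _ _).1 (congrArg Prod.snd h4)
        refine ⟨⟨X.Y o' - X.Y o, h5⟩, ?_, by simp⟩
        show X.Y o + (X.Y o' - X.Y o) ∈ A
        rw [add_sub_cancel]
        exact o'.2
      exact (Set.ncard_le_ncard h3 (Set.toFinite _)).trans
        ((Set.ncard_image_le (Set.toFinite _)).trans (hx _)))
  have h2 : Ent X.w (fun o => (X.Y o, (X.J o, (QuotientAddGroup.mk (X.Y o) : G ⧸ V)))) =
      Ent X.w (fun o => (X.J o, X.Y o)) := by
    refine Ent_congr fun o o' => ?_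
    simp only [Prod.mk.injEq]
    constructor
    · rintro ⟨b, c, -⟩; exact ⟨c, b⟩
    · rintro ⟨b, c⟩; exact ⟨c, b, by rw [c]⟩
  rw [h2] at h1
  have h3 := X.D_bot
  have h4 : X.D V = Real.log V.index -
      (Ent X.w (fun o => (X.J o, (QuotientAddGroup.mk (X.Y o) : G ⧸ V))) - Ent X.w X.J) := rfl
  have h5 : Real.log (Nat.card G) = Real.log (Nat.card V) + Real.log V.index := by
    rw [← Real.log_mul, ← Nat.cast_mul, AddSubgroup.card_mul_index]
    · exact_mod_cast Nat.card_pos.ne'
    · exact (index_pos V).ne'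
  linarith

/-- **Small doubling.** -/
theorem coset_of_doubling {κ : ℝ} (hκ : 0 < κ) (hc : ContrR κ (1 / 2))
    (hG : ∃ k : ℕ, ∀ x : G, (2 ^ k : ℕ) • x = 0) (A P : Set G) (hA : A.Nonempty)
    (hP : ∀ a ∈ A, ∀ b ∈ A, a + b ∈ P) :
    ∃ (V : AddSubgroup G) (x : G), (piece A V x).Nonempty ∧
      κ * Real.log (V ⊔ dbl G).index ≤ Real.log (Nat.card G) - Real.log A.ncard ∧
      Real.log (Nat.card V) - Real.log (piece A V x).ncard ≤
        2 * (Real.log P.ncard - Real.log A.ncard) := by
  classical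
  set X := unif A hA with hX
  obtain ⟨V, hV⟩ := Finite.exists_max fun V : AddSubgroup G =>
    X.D V - κ * Real.log (V ⊔ dbl G).index
  obtain ⟨x, hx1, hx2⟩ := exists_coset A hA V
  have hbot : X.D ⊥ ≤ Real.log (Nat.card G) - Real.log A.ncard := unif_D_bot A hA
  refine ⟨V, x, hx1, ?_, ?_⟩
  · have h1 := hV ⊤
    simp only [top_sup_eq, AddSubgroup.index_top, Nat.cast_one, Real.log_one, mul_zero,
      sub_zero] at h1
    have h2 := X.D_top
    have h3 := X.D_anti (bot_le : ⊥ ≤ V)
    linarith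
  · -- the family conditioned on the coset has small slopes
    have hslope : Slope (X.resV V) κ := by
      intro K
      rw [Fam.resV_D]
      have h1 : X.D (K.map V.subtype) - κ * Real.log (K.map V.subtype ⊔ dbl G).index ≤
          X.D V - κ * Real.log (V ⊔ dbl G).index := hV (K.map V.subtype)
      have h2 := index_sub V K
      nlinarith
    have hV2 : ∃ k : ℕ, ∀ v : V, (2 ^ k : ℕ) • v = 0 := by
      obtain ⟨k, hk⟩ := hG
      refine ⟨k, fun v => ?_⟩
      apply Subtype.ext
      rw [AddSubgroup.coe_nsmul]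
      exact hk v
    have h1 := hc V hV2 (X.resV V) hslope
    rw [Fam.resV_D_bot] at h1
    have h2 := (Fam.fine_add_resV X X V).D_le ⊥
    rw [Fam.resV_D_bot] at h2
    have h3 := Fam.D_add_le X X V
    have h4 := card_range (X.add X) P (fun o => hP _ o.1.2 _ o.2.2)
    change Real.log (Nat.card V) - (X.D ⊥ - X.D V) ≤ _ at hx2
    linarith

end Pool.Agent.Helper30.DB
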