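import Pool.Agent.Helper30.DB.Main
import Pool.Agent.Helper73.BG.Phase2

/-!
# Small doubling: the final theorems
-/

set_option autoImplicit false

open MeasureTheory

namespace Pool.Agent.Helper30.DB

open Pool.Agent.Helper15.BP Pool.Agent.Helper25.BP Pool.Agent.Helper36.BP

theorem nearOpt_holds (m : ℕ) (hm : 1 ≤ m) (ε : ℝ) (hε : 0 < ε) : NearOpt m ((m : ℝ) - ε) := by
  obtain ⟨C, hC, h⟩ := Pool.Agent.Helper73.BG.contrM_holds m hm ε hε
  exact ⟨C, hC, fun κ h0 h1 => contrRM_of_contrM m κ _ (h κ h0 h1)⟩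

/-- dense sets, `m` summands -/
theorem finDense_power (n : ℕ) (s C : ℝ) (hC : 1 ≤ C) (hs : 0 < s)
    (h : ∀ κ : ℝ, 0 < κ → κ ≤ 1 → ContrRM n κ (C * κ ^ s)) (E : ℝ) (hE : 1 ≤ E) :
    FinDense (n + 1) E ((2 * C) ^ (1 / s) * E ^ (1 + 1 / s)) := by
  intro G _ _ hG A hA hAE
  exact Pool.Agent.Helper73.BG.finite_of_contrRM n s C hC hs h G hG A hA E hE hAE

/-- `2 log (8 K) ≤ 6 (1 + log K)` -/
theorem log_eight_le {K : ℝ} (hK : 1 ≤ K) : 2 * Real.log (8 * K) ≤ 6 * (1 + Real.log K) := by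
  have h1 : Real.log 8 = 3 * Real.log 2 := by
    rw [show (8 : ℝ) = 2 ^ (3 : ℕ) by norm_num, Real.log_pow]
    norm_num
  have h2 := Real.log_two_lt_d9
  have h3 := Real.log_nonneg hK
  rw [Real.log_mul (by norm_num) (by linarith), h1]
  linarith

/-- **Theorem DB.** -/
theorem db (m : ℕ) (hm : 2 ≤ m) (ε : ℝ) (hε : 0 < ε) :
    ∃ C : ℝ, 0 < C ∧ ∀ (d : ℕ) (A : Set (Fin d → UnitAddCircle)), MeasurableSet A →
      0 < volume A → ∀ K : ℝ, 1 ≤ K →
      volume {z | ∃ a ∈ A, ∃ b ∈ A, z = a + b} ≤ ENNReal.ofReal K * volume A →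
      HasSub d m A (C * ((1 + Real.log (1 / (volume A).toReal)) +
        (1 + Real.log K) ^ ((m : ℝ) / (m - 1) + ε))) := by
  obtain ⟨n, rfl⟩ : ∃ n, m = n + 1 := ⟨m - 1, by omega⟩
  have hn : 1 ≤ n := by omega
  have hn' : (0 : ℝ) < n := by exact_mod_cast hn
  set ε' : ℝ := ε * n ^ 2 / (1 + ε * n) with hε'
  have hε'0 : 0 < ε' := by positivity
  have ha : (n : ℝ) - ε' = n / (1 + ε * n) := by
    rw [hε']
    field_simp
    ring
  have ha0 : 0 < (n : ℝ) - ε' := by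
    rw [ha]
    positivity
  have he : 1 + 1 / ((n : ℝ) - ε') = ((n + 1 : ℕ) : ℝ) / ((n + 1 : ℕ) - 1) + ε := by
    have e1 : ((n + 1 : ℕ) : ℝ) - 1 = n := by push_cast; ring
    rw [ha, e1]
    push_cast
    field_simp
    ring
  set e : ℝ := ((n + 1 : ℕ) : ℝ) / ((n + 1 : ℕ) - 1) + ε with hedef
  have he0 : 0 ≤ e := by
    rw [← he]
    positivity
  obtain ⟨C₀, hC₀, h⟩ := nearOpt_holds n hn ε' hε'0
  obtain ⟨κ, hκ0, hκ1, hκ⟩ := exists_half
  set B : ℝ := (2 * C₀) ^ (1 / ((n : ℝ) - ε')) * 6 ^ e with hB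
  have hB0 : 0 < B := by positivity
  have hlog2 : 0 < Real.log 2 := Real.log_pos (by norm_num)
  have hlog8 : Real.log 8 ≤ 3 := by
    have h1 : Real.log 8 = 3 * Real.log 2 := by
      rw [show (8 : ℝ) = 2 ^ (3 : ℕ) by norm_num, Real.log_pow]
      norm_num
    have h2 := Real.log_two_lt_d9
    linarith
  refine ⟨(3 / κ + B) / Real.log 2, by positivity, ?_⟩
  intro d A hA hpos K hK1 hK
  have hL := log_nonneg A
  set L := Real.log (1 / (volume A).toReal) with hLdef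
  have hlK := Real.log_nonneg hK1
  have h1 := torus_double (n + 1) hκ0 hκ (6 * (1 + Real.log K)) _
    (finDense_power n ((n : ℝ) - ε') C₀ hC₀ ha0 h (6 * (1 + Real.log K)) (by linarith))
    d A hA hpos K hK1 hK (log_eight_le hK1)
  refine h1.mono ?_
  have h0 : (6 * (1 + Real.log K)) ^ e = 6 ^ e * (1 + Real.log K) ^ e :=
    Real.mul_rpow (by norm_num) (by linarith)
  rw [he, h0, div_mul_eq_mul_div, ← hLdef]
  refine div_le_div_of_nonneg_right ?_ hlog2.le
  have hX : 0 ≤ (1 + Real.log K) ^ e := Real.rpow_nonneg (by linarith) _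
  have h2 : (Real.log 8 + L) / κ ≤ 3 / κ * (1 + L) := by
    rw [div_mul_eq_mul_div]
    refine div_le_div_of_nonneg_right ?_ hκ0.le
    linarith
  have h3 : (2 * C₀) ^ (1 / ((n : ℝ) - ε')) * (6 ^ e * (1 + Real.log K) ^ e) =
      B * (1 + Real.log K) ^ e := by
    rw [hB]
    ring
  rw [h3]
  have h4 : 0 ≤ 3 / κ * (1 + Real.log K) ^ e := by positivity
  have h5 : 0 ≤ B * (1 + L) := by positivity
  nlinarith

/-- the finite theorem for iterated two-fold contraction -/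
theorem fin_iter (c : ℝ) (hc : 0 < c) (h : NearOpt 1 c) :
    ∃ C : ℝ, 0 < C ∧ ∀ j : ℕ, 1 ≤ j → ∀ E : ℝ, 0 ≤ E →
      FinDense (2 ^ j) E (C * (1 + E) ^ (1 + 1 / ((1 + c) ^ j - 1) : ℝ)) := by
  classical
  obtain ⟨C₀, hC₀, hcon⟩ := h
  have hC1 : (1 : ℝ) ≤ C₀ ^ (1 / c) := Real.one_le_rpow hC₀ (by positivity)
  have hiter := iter_of_power hC₀ hc (fun κ h0 h1 => hcon κ h0 h1)
  set C : ℝ := C₀ ^ (1 / c) * 2 ^ (1 / c) with hCdef
  have hC : 0 < C := by positivity
  refine ⟨C, hC, ?_⟩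
  intro j hj E hE G _ _ hexp B hB hBE
  have hγ : c ≤ (1 + c) ^ j - 1 := by
    have h1 : (1 + c) ^ 1 ≤ (1 + c) ^ j := pow_le_pow_right₀ (by linarith) hj
    rw [pow_one] at h1
    linarith
  have hγ0 : 0 < (1 + c) ^ j - 1 := lt_of_lt_of_le hc hγ
  set e : ℝ := (1 + 1 / ((1 + c) ^ j - 1) : ℝ) with he
  have he0 : 0 ≤ e := by positivity
  obtain ⟨X, hX0, hX1, hXL, hXC⟩ := FT1.choose_X hc hE hj
  have hκ : 0 < X / C₀ ^ (1 / c) := by positivity
  obtain ⟨V, x, Y, hsl, hD, hval⟩ := Pool.Agent.Helper25.BP.reg B hB _ hκ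
  have hBD : 0 ≤ Y.D ⊥ := Y.D_nonneg ⊥
  have hidx : 0 ≤ Real.log (V ⊔ dbl G).index := Real.log_natCast_nonneg _
  have hBL : Y.D ⊥ ≤ E := by
    have : 0 ≤ X / C₀ ^ (1 / c) * Real.log (V ⊔ dbl G).index := mul_nonneg hκ.le hidx
    linarith
  have hVexp : ∃ k : ℕ, ∀ v : V, (2 ^ k : ℕ) • v = 0 := by
    obtain ⟨k, hk⟩ := hexp
    exact ⟨k, fun v => Subtype.ext (by
      rw [AddSubgroup.coe_nsmul, hk, AddSubgroup.coe_zero])⟩
  have hsmall : (twoPow Y j).D ⊥ < Real.log 2 := by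
    have h1 := (hiter V hVexp Y X hX0 hX1 hsl j).2
    have h2 : X ^ ((1 + c) ^ j - 1 : ℝ) * Y.D ⊥ ≤ X ^ ((1 + c) ^ j - 1 : ℝ) * E :=
      mul_le_mul_of_nonneg_left hBL (Real.rpow_nonneg hX0.le _)
    have h3 := Real.log_two_gt_d9
    linarith
  refine ⟨V, ?_, Pool.Agent.Helper25.BP.support_diff (B : Set G) V x Y hval j hsmall⟩
  have h1 : X / C₀ ^ (1 / c) * Real.log (V ⊔ dbl G).index ≤ E := by linarith
  have h2 : Real.log (V ⊔ dbl G).index ≤ C₀ ^ (1 / c) * (E / X) := by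
    have e' : Real.log (V ⊔ dbl G).index =
        C₀ ^ (1 / c) / X * (X / C₀ ^ (1 / c) * Real.log (V ⊔ dbl G).index) := by
      field_simp
    rw [e']
    have h3 : C₀ ^ (1 / c) * (E / X) = C₀ ^ (1 / c) / X * E := by ring
    rw [h3]
    exact mul_le_mul_of_nonneg_left h1 (by positivity)
  calc Real.log (V ⊔ dbl G).index ≤ C₀ ^ (1 / c) * (E / X) := h2
    _ ≤ C₀ ^ (1 / c) * ((2 : ℝ) ^ (1 / c) * (1 + E) ^ e) :=
        mul_le_mul_of_nonneg_left hXC (by positivity)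
    _ = C * (1 + E) ^ e := by rw [hCdef]; ring

/-- linear codimension, `(1 + log (1 + log K)) ^ (log 2 / log (1 + c))` summands -/
theorem db_linear_of (c : ℝ) (hc : 0 < c) (h : NearOpt 1 c) :
    ∃ C : ℝ, 0 < C ∧ ∀ (d : ℕ) (A : Set (Fin d → UnitAddCircle)), MeasurableSet A →
      0 < volume A → ∀ K : ℝ, 1 ≤ K →
      volume {z | ∃ a ∈ A, ∃ b ∈ A, z = a + b} ≤ ENNReal.ofReal K * volume A →
      ∀ m : ℕ, C * (1 + Real.log (1 + Real.log K)) ^ (Real.log 2 / Real.log (1 + c)) ≤ m →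
      HasSub d m A (C * (1 + Real.log (1 / (volume A).toReal))) := by
  obtain ⟨C, hC, h⟩ := fin_iter c hc h
  obtain ⟨κ, hκ0, hκ1, hκ⟩ := exists_half
  have hlogc : 0 < Real.log (1 + c) := Real.log_pos (by linarith)
  have hlog2 : 0 < Real.log 2 := Real.log_pos (by norm_num)
  have hlog8 : Real.log 8 ≤ 3 := by
    have h1 : Real.log 8 = 3 * Real.log 2 := by
      rw [show (8 : ℝ) = 2 ^ (3 : ℕ) by norm_num, Real.log_pow]
      norm_num
    have h2 := Real.log_two_lt_d9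
    linarith
  set p : ℝ := Real.log 2 / Real.log (1 + c) with hp
  have hp0 : 0 < p := by positivity
  set C1 : ℝ := max (2 * 4 ^ p) ((3 / κ + C * Real.exp 1 * 7) / Real.log 2) with hC1
  have hC1a : 2 * 4 ^ p ≤ C1 := le_max_left _ _
  have hC1c : (3 / κ + C * Real.exp 1 * 7) / Real.log 2 ≤ C1 := le_max_right _ _
  have hC10 : 0 < C1 := lt_of_lt_of_le (by positivity) hC1a
  refine ⟨C1, hC10, ?_⟩
  intro d A hA hpos K hK1 hK m hm
  -- we may assume that `K ≤ 1 / α`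
  have hα := volume_pos hpos
  have hα1 := volume_le_one A
  set α : ℝ := (volume A).toReal with hαdef
  have hL := log_nonneg A
  rw [← hαdef] at hL
  set L := Real.log (1 / α) with hLdef
  obtain ⟨K', hK'1, hK'K, hK'L, hK'⟩ : ∃ K' : ℝ, 1 ≤ K' ∧ K' ≤ K ∧ Real.log K' ≤ L ∧
      volume {z | ∃ a ∈ A, ∃ b ∈ A, z = a + b} ≤ ENNReal.ofReal K' * volume A := by
    by_cases hcase : K ≤ 1 / α
    · exact ⟨K, hK1, le_refl _, Real.log_le_log (by linarith) hcase, hK⟩
    · refine ⟨1 / α, ?_, (not_le.1 hcase).le, le_refl _, ?_⟩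
      · rw [le_div_iff₀ hα]
        linarith
      · have h1 : volume {z : Fin d → UnitAddCircle | ∃ a ∈ A, ∃ b ∈ A, z = a + b} ≤ 1 := by
          rw [← Pool.Agent.Helper73.BG.volume_univ_torus d]
          exact measure_mono (Set.subset_univ _)
        refine h1.trans (le_of_eq ?_)
        have h2 : volume A = ENNReal.ofReal α := by
          rw [hαdef, ENNReal.ofReal_toReal (measure_ne_top _ _)]
        rw [h2, ← ENNReal.ofReal_mul (by positivity), one_div_mul_cancel hα.ne',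
          ENNReal.ofReal_one]
  have hlK := Real.log_nonneg hK1
  have hlK' := Real.log_nonneg hK'1
  have hlKK : Real.log K' ≤ Real.log K := Real.log_le_log (by linarith) hK'K
  set E : ℝ := 6 * (1 + Real.log K') with hE
  have hE0 : 0 ≤ E := by linarith
  -- the number of doublings
  set y := Real.log (1 + Real.log K) with hydef
  have hy : 0 ≤ y := Real.log_nonneg (by linarith)
  set x := Real.log (1 + E) with hxdef
  have hx : 0 ≤ x := Real.log_nonneg (by linarith)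
  have hxy : x ≤ 2 + y := by
    have h1 : 1 + E ≤ Real.exp 2 * (1 + Real.log K) := by
      have h2 : (7 : ℝ) ≤ Real.exp 2 := by
        have h3 := Real.exp_one_gt_d9
        have h4 : Real.exp 2 = Real.exp 1 * Real.exp 1 := by
          rw [← Real.exp_add]
          norm_num
        rw [h4]
        nlinarith
      nlinarith
    have h2 := Real.log_le_log (by linarith) h1
    rw [Real.log_mul (Real.exp_pos _).ne' (by linarith), Real.log_exp] at h2
    exact h2
  set j : ℕ := ⌈Real.log (2 + x) / Real.log (1 + c)⌉₊ with hj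
  have hlogx : 0 < Real.log (2 + x) := Real.log_pos (by linarith)
  have hj1 : 1 ≤ j := Nat.one_le_ceil_iff.2 (by positivity)
  have hj2 : Real.log (2 + x) / Real.log (1 + c) ≤ j := Nat.le_ceil _
  have hj3 : (j : ℝ) < Real.log (2 + x) / Real.log (1 + c) + 1 := Nat.ceil_lt_add_one (by positivity)
  have h1 : 2 + x ≤ (1 + c) ^ j := by
    rw [div_le_iff₀ hlogc] at hj2
    have h2 := Real.exp_le_exp.2 hj2
    rw [Real.exp_log (by linarith)] at h2
    calc 2 + x ≤ Real.exp (j * Real.log (1 + c)) := h2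
      _ = (1 + c) ^ j := by
        rw [Real.exp_nat_mul, Real.exp_log (by linarith)]
  have h2 : ((2 ^ j : ℕ) : ℝ) ≤ m := by
    refine le_trans ?_ hm
    have h3 : ((2 ^ j : ℕ) : ℝ) = Real.exp (j * Real.log 2) := by
      rw [Real.exp_nat_mul, Real.exp_log (by norm_num)]
      norm_num
    rw [h3]
    calc Real.exp (j * Real.log 2)
        ≤ Real.exp ((Real.log (2 + x) / Real.log (1 + c) + 1) * Real.log 2) :=
          Real.exp_le_exp.2 (mul_le_mul_of_nonneg_right hj3.le hlog2.le)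
      _ = 2 * (2 + x) ^ p := by
          rw [Real.rpow_def_of_pos (by linarith), add_mul, one_mul, Real.exp_add,
            Real.exp_log (by norm_num : (0 : ℝ) < 2), mul_comm, hp]
          congr 2
          ring
      _ ≤ 2 * (4 * (1 + y)) ^ p :=
          mul_le_mul_of_nonneg_left (Real.rpow_le_rpow (by linarith) (by linarith) hp0.le)
            (by norm_num)
      _ = 2 * 4 ^ p * (1 + y) ^ p := by
          rw [Real.mul_rpow (by norm_num) (by linarith)]; ring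
      _ ≤ C1 * (1 + y) ^ p :=
          mul_le_mul_of_nonneg_right hC1a (Real.rpow_nonneg (by linarith) _)
  have h3 : (2 ^ j : ℕ) ≤ m := by exact_mod_cast h2
  have h4 := torus_double (2 ^ j) hκ0 hκ E _ (h j hj1 E hE0) d A hA hpos K' hK'1 hK'
    (log_eight_le hK'1)
  refine (h4.mono ?_).more (nonempty_of_measure_ne_zero hpos.ne') h3
  have hγ : 0 < (1 + c) ^ j - 1 := by linarith
  have h5 : (1 + E) ^ (1 + 1 / ((1 + c) ^ j - 1) : ℝ) ≤ Real.exp 1 * (1 + E) := by
    rw [Real.rpow_add (by linarith), Real.rpow_one, mul_comm]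
    refine mul_le_mul_of_nonneg_right ?_ (by linarith)
    rw [Real.rpow_def_of_pos (by linarith)]
    refine Real.exp_le_exp.2 ?_
    rw [mul_one_div, div_le_one hγ]
    linarith
  have h6 : 1 + E ≤ 7 * (1 + L) := by linarith
  have h7 : C * (1 + E) ^ (1 + 1 / ((1 + c) ^ j - 1) : ℝ) ≤ C * Real.exp 1 * 7 * (1 + L) := by
    calc C * (1 + E) ^ (1 + 1 / ((1 + c) ^ j - 1) : ℝ) ≤ C * (Real.exp 1 * (1 + E)) :=
          mul_le_mul_of_nonneg_left h5 hC.le
      _ ≤ C * (Real.exp 1 * (7 * (1 + L))) := by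
          refine mul_le_mul_of_nonneg_left ?_ hC.le
          exact mul_le_mul_of_nonneg_left h6 (Real.exp_pos _).le
      _ = C * Real.exp 1 * 7 * (1 + L) := by ring
  have h8 : (Real.log 8 + L) / κ ≤ 3 / κ * (1 + L) := by
    rw [div_mul_eq_mul_div]
    refine div_le_div_of_nonneg_right ?_ hκ0.le
    linarith
  calc ((Real.log 8 + L) / κ + C * (1 + E) ^ (1 + 1 / ((1 + c) ^ j - 1) : ℝ)) / Real.log 2
      ≤ (3 / κ * (1 + L) + C * Real.exp 1 * 7 * (1 + L)) / Real.log 2 :=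
        div_le_div_of_nonneg_right (add_le_add h8 h7) hlog2.le
    _ = (3 / κ + C * Real.exp 1 * 7) / Real.log 2 * (1 + L) := by ring
    _ ≤ C1 * (1 + L) := mul_le_mul_of_nonneg_right hC1c (by linarith)

/-- **Theorem DB, linear codimension.** -/
theorem db_linear (ε : ℝ) (hε : 0 < ε) :
    ∃ C : ℝ, 0 < C ∧ ∀ (d : ℕ) (A : Set (Fin d → UnitAddCircle)), MeasurableSet A →
      0 < volume A → ∀ K : ℝ, 1 ≤ K →
      volume {z | ∃ a ∈ A, ∃ b ∈ A, z = a + b} ≤ ENNReal.ofReal K * volume A →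
      ∀ m : ℕ, C * (1 + Real.log (1 + Real.log K)) ^ (1 + ε) ≤ m →
      HasSub d m A (C * (1 + Real.log (1 / (volume A).toReal))) := by
  have hlog2 : 0 < Real.log 2 := Real.log_pos (by norm_num)
  set c : ℝ := (2 : ℝ) ^ (1 / (1 + ε)) - 1 with hc
  have hc1 : 1 + c = (2 : ℝ) ^ (1 / (1 + ε)) := by rw [hc]; ring
  have hc0 : 0 < c := by
    have : (1 : ℝ) < 2 ^ (1 / (1 + ε)) := Real.one_lt_rpow (by norm_num) (by positivity)
    linarith
  have hclt : c < 1 := by
    have h1 : (2 : ℝ) ^ (1 / (1 + ε)) < 2 ^ (1 : ℝ) :=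
      Real.rpow_lt_rpow_of_exponent_lt (by norm_num) (by
        rw [div_lt_one (by linarith)]
        linarith)
    rw [Real.rpow_one] at h1
    linarith
  have hexp : Real.log 2 / Real.log (1 + c) = 1 + ε := by
    rw [hc1, Real.log_rpow (by norm_num)]
    field_simp
  have h1 : NearOpt 1 c := by
    have h2 := nearOpt_holds 1 (le_refl _) (1 - c) (by linarith)
    have e : ((1 : ℕ) : ℝ) - (1 - c) = c := by push_cast; ring
    rwa [e] at h2
  have h2 := db_linear_of c hc0 h1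
  rwa [hexp] at h2

end Pool.Agent.Helper30.DB
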