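import Pool.Agent.Helper73.BG.Limit

/-!
# Limits of subgroups, and lattices which do not increase the doubling
-/

set_option autoImplicit false

open MeasureTheory Filter

namespace Pool.Agent.Helper30.DB

open Pool.Agent.Helper73.BG

/-- The limit argument of `torus_limit_meas`, for given finite sets `B k` and subgroups `V k`. -/
theorem limit_core (d m : ℕ) (c : ℝ) (K : Set (Fin d → UnitAddCircle)) (hKc : IsCompact K)
    (t : ℕ → (Fin d → UnitAddCircle)) (B : ∀ k : ℕ, Finset (Fin d → ZMod (2 ^ k)))
    (V : ∀ k : ℕ, AddSubgroup (Fin d → ZMod (2 ^ k)))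
    (hB : ∀ k, ∀ a ∈ B k, emb d k a + t k ∈ K)
    (hVc : ∀ k, Real.log ((V k ⊔ (nsmulAddMonoidHom (α := Fin d → ZMod (2 ^ k)) 2).range).index
      : ℝ) ≤ c * Real.log 2)
    (hV : ∀ k, ∀ v ∈ V k, ∃ a b : Fin m → (Fin d → ZMod (2 ^ k)), (∀ l, a l ∈ B k) ∧
      (∀ l, b l ∈ B k) ∧ v = (∑ l, a l) - (∑ l, b l)) :
    ∃ (k : ℕ) (φ : (Fin k → UnitAddCircle) →+ (Fin d → UnitAddCircle)),
      Continuous φ ∧ Function.Injective φ ∧ (d : ℝ) - k ≤ c ∧
      Set.range φ ⊆ {y | ∃ a b : Fin m → (Fin d → UnitAddCircle),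
        (∀ l, a l ∈ K) ∧ (∀ l, b l ∈ K) ∧ y = (∑ l, a l) - (∑ l, b l)} := by
  classical
  -- the set `m K - m K` is closed
  set S : Set (Fin d → UnitAddCircle) := {y | ∃ a b : Fin m → (Fin d → UnitAddCircle),
    (∀ l, a l ∈ K) ∧ (∀ l, b l ∈ K) ∧ y = (∑ l, a l) - (∑ l, b l)} with hS
  have hSc : IsClosed S := by
    have h1 : IsCompact (Set.univ.pi fun _ : Fin m => K) := isCompact_univ_pi fun _ => hKc
    have h2 : Continuous (fun p : (Fin m → (Fin d → UnitAddCircle)) ×
        (Fin m → (Fin d → UnitAddCircle)) => (∑ l, p.1 l) - (∑ l, p.2 l)) := by fun_prop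
    have h3 := ((h1.prod h1).image h2).isClosed
    have h4 : S = (fun p : (Fin m → (Fin d → UnitAddCircle)) ×
        (Fin m → (Fin d → UnitAddCircle)) => (∑ l, p.1 l) - (∑ l, p.2 l)) ''
          ((Set.univ.pi fun _ : Fin m => K) ×ˢ (Set.univ.pi fun _ : Fin m => K)) := by
      ext y
      constructor
      · rintro ⟨a, b, ha, hb, rfl⟩
        exact ⟨(a, b), ⟨fun l _ => ha l, fun l _ => hb l⟩, rfl⟩
      · rintro ⟨⟨a, b⟩, ⟨ha, hb⟩, rfl⟩
        exact ⟨a, b, fun l => ha l (Set.mem_univ _), fun l => hb l (Set.mem_univ _), rfl⟩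
    rw [h4]
    exact h3
  set U : Ultrafilter ℕ := Filter.hyperfilter ℕ with hU
  set Lam : Set (Fin d → ℤ) :=
    {l | ∀ᶠ k in U, ∀ a ∈ V k, ∑ t, (l t : ZMod (2 ^ k)) * a t = 0} with hLam
  obtain ⟨r, v, hvL, hvi, hspan⟩ := Pool.Agent.Helper30.BX.exists_max_indep d Lam
  have hlog2 : 0 < Real.log 2 := Real.log_pos (by norm_num)
  -- the rank of the limit
  have hrc : (r : ℝ) ≤ c := by
    by_contra hcon
    push Not at hcon
    obtain ⟨M, x, hM, hvx⟩ := exists_dual v hvi
    have h1 : ∀ᶠ k in U, ∀ i, ∀ a ∈ V k, ∑ t, (v i t : ZMod (2 ^ k)) * a t = 0 := by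
      rw [Filter.eventually_all]
      exact fun i => hvL i
    have h2 : ∀ᶠ k : ℕ in U, |M ^ r| < 2 ^ k := by
      have h3 : ∀ᶠ k : ℕ in atTop, |M ^ r| < 2 ^ k := by
        filter_upwards [eventually_ge_atTop (|M ^ r|).toNat] with k hk
        have h4 : ((|M ^ r|).toNat : ℤ) = |M ^ r| := Int.toNat_of_nonneg (abs_nonneg _)
        have h5 : k < 2 ^ k := Nat.lt_two_pow_self
        have h6 : (k : ℤ) < 2 ^ k := by exact_mod_cast h5
        have h7 : ((|M ^ r|).toNat : ℤ) ≤ k := by exact_mod_cast hk
        linarith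
      exact Nat.hyperfilter_le_atTop h3
    obtain ⟨k, hk1, hk2⟩ := (h1.and h2).exists
    have h8 : (V k ⊔ (nsmulAddMonoidHom (α := Fin d → ZMod (2 ^ k)) 2).range).index < 2 ^ r := by
      by_contra h9
      push Not at h9
      have h10 : ((2 ^ r : ℕ) : ℝ) ≤
          ((V k ⊔ (nsmulAddMonoidHom (α := Fin d → ZMod (2 ^ k)) 2).range).index : ℝ) := by
        exact_mod_cast h9
      have h11 := Real.log_le_log (by positivity) h10
      push_cast at h11
      rw [Real.log_pow] at h11
      have h12 := hVc k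
      nlinarith
    have h13 := dvd_of_annihilate v x M hvx (V k) hk1 h8
    have h14 : M ^ r ≠ 0 := pow_ne_zero _ hM
    have h15 := Int.le_of_dvd (abs_pos.mpr h14) ((dvd_abs _ _).mpr h13)
    linarith
  obtain ⟨kk, Mat, P, hd, hP, hvM⟩ := Pool.Agent.Helper30.BX.exists_matrices d r v
  refine ⟨kk, Pool.Agent.Helper30.BX.torHom Mat, Pool.Agent.Helper30.BX.torHom_continuous Mat,
    Pool.Agent.Helper30.BX.torHom_injective Mat P hP, ?_, ?_⟩
  · have h1 : (d : ℝ) ≤ kk + r := by exact_mod_cast hd
    linarith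
  · rintro y ⟨w, rfl⟩
    set y := Pool.Agent.Helper30.BX.torHom Mat w with hy
    have hann : ∀ l : Fin d → ℤ, (∀ᶠ k in U, ∀ a ∈ V k, ∑ t, (l t : ZMod (2 ^ k)) * a t = 0) →
        pair l y = 0 := by
      intro l hl
      obtain ⟨e, n, he, hen⟩ := hspan l hl
      have h1 : ∀ j, ∑ i, l i * Mat i j = 0 := by
        intro j
        have h2 : e * ∑ i, l i * Mat i j = 0 := by
          calc e * ∑ i, l i * Mat i j = ∑ i, (e • l) i * Mat i j := by
                rw [Finset.mul_sum]
                apply Finset.sum_congr rfl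
                intro i _
                rw [Pi.smul_apply, smul_eq_mul, mul_assoc]
            _ = ∑ i, (∑ s, n s • v s) i * Mat i j := by rw [hen]
            _ = ∑ s, n s * ∑ i, v s i * Mat i j := by
                simp_rw [Finset.sum_apply, Pi.smul_apply, smul_eq_mul, Finset.sum_mul,
                  Finset.mul_sum]
                rw [Finset.sum_comm]
                apply Finset.sum_congr rfl
                intro s _
                apply Finset.sum_congr rfl
                intro i _
                ring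
            _ = 0 := by
                apply Finset.sum_eq_zero
                intro s _
                rw [hvM, mul_zero]
        exact (mul_eq_zero.mp h2).resolve_left he
      unfold pair
      have h3 : ∀ i, l i • y i = ∑ j, (l i * Mat i j) • w j := by
        intro i
        change l i • ∑ j, Mat i j • w j = _
        rw [Finset.smul_sum]
        apply Finset.sum_congr rfl
        intro j _
        rw [mul_smul]
      rw [Finset.sum_congr rfl (fun i _ => h3 i), Finset.sum_comm]
      apply Finset.sum_eq_zero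
      intro j _
      rw [← Finset.sum_smul, h1, zero_smul]
    have hyS : y ∈ S := by
      rw [← hSc.closure_eq, Metric.mem_closure_iff]
      intro δ hδ
      obtain ⟨k, a, ha, hdist⟩ := (dense_of_annihilator V U y hann δ hδ).exists
      obtain ⟨p, q, hp, hq, hpq⟩ := hV k a ha
      refine ⟨emb d k a, ⟨fun l => emb d k (p l) + t k, fun l => emb d k (q l) + t k,
        fun l => hB k _ (hp l), fun l => hB k _ (hq l), ?_⟩, hdist⟩
      rw [Finset.sum_add_distrib, Finset.sum_add_distrib]
      have h4 : emb d k a = ∑ l, emb d k (p l) - ∑ l, emb d k (q l) := by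
        rw [hpq, map_sub, map_sum, map_sum]
      rw [h4]
      abel
    exact hyS


/-- Doubling preserves the measure of the torus. -/
theorem measurePreserving_two (d : ℕ) :
    MeasurePreserving (fun t : Fin d → UnitAddCircle => (2 : ℕ) • t) volume volume := by
  have h1 : ∀ _ : Fin d, MeasurePreserving (fun y : UnitAddCircle => (2 : ℕ) • y) volume volume :=
    fun _ => (AddCircle.ergodic_nsmul (T := 1) (n := 2) (by norm_num)).toMeasurePreserving
  exact volume_preserving_pi (α' := fun _ : Fin d => UnitAddCircle)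
    (β' := fun _ : Fin d => UnitAddCircle) (f := fun _ y => (2 : ℕ) • y) h1

/-- The average number of lattice points in a measurable set. -/
theorem lintegral_count (d k : ℕ) (S : Set (Fin d → UnitAddCircle)) (hS : MeasurableSet S) :
    ∫⁻ t, ∑ a : Fin d → ZMod (2 ^ k), S.indicator (1 : (Fin d → UnitAddCircle) → ENNReal)
      (emb d k a + t) = (((2 ^ k) ^ d : ℕ) : ENNReal) * volume S := by
  have hcard : (Finset.univ : Finset (Fin d → ZMod (2 ^ k))).card = (2 ^ k) ^ d := by
    rw [Finset.card_univ, Fintype.card_fun, ZMod.card, Fintype.card_fin]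
  rw [lintegral_finsetSum]
  · have h2 : ∀ a : Fin d → ZMod (2 ^ k), ∫⁻ t, S.indicator
        (1 : (Fin d → UnitAddCircle) → ENNReal) (emb d k a + t) = volume S := by
      intro a
      rw [lintegral_add_left_eq_self (fun t => S.indicator
        (1 : (Fin d → UnitAddCircle) → ENNReal) t) (emb d k a)]
      exact lintegral_indicator_one hS
    rw [Finset.sum_congr rfl (fun a _ => h2 a), Finset.sum_const, hcard, nsmul_eq_mul]
  · intro a _
    exact (measurable_one.indicator hS).comp (measurable_const_add _)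

theorem lintegral_count_two (d k : ℕ) (S : Set (Fin d → UnitAddCircle)) (hS : MeasurableSet S) :
    ∫⁻ t : Fin d → UnitAddCircle, ∑ a : Fin d → ZMod (2 ^ k),
      S.indicator (1 : (Fin d → UnitAddCircle) → ENNReal) (emb d k a + (2 : ℕ) • t) =
        (((2 ^ k) ^ d : ℕ) : ENNReal) * volume S := by
  rw [← lintegral_count d k S hS]
  refine (measurePreserving_two d).lintegral_comp
    (f := fun t => ∑ a : Fin d → ZMod (2 ^ k),
      S.indicator (1 : (Fin d → UnitAddCircle) → ENNReal) (emb d k a + t)) ?_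
  refine Finset.measurable_sum _ fun a _ => ?_
  exact (measurable_one.indicator hS).comp (measurable_const_add _)

/-- Some translate of the lattice meets `K` in many points, with small doubling. -/
theorem exists_translate_two (d k : ℕ) (K P : Set (Fin d → UnitAddCircle))
    (hK : MeasurableSet K) (hP : MeasurableSet P) (hKP : ∀ x ∈ K, ∀ y ∈ K, x + y ∈ P)
    (hpos : 0 < volume K) :
    ∃ (t : Fin d → UnitAddCircle) (B Q : Finset (Fin d → ZMod (2 ^ k))),
      (∀ a ∈ B, emb d k a + t ∈ K) ∧ (∀ a ∈ B, ∀ b ∈ B, a + b ∈ Q) ∧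
      (volume K).toReal / 4 * (2 ^ k : ℝ) ^ d ≤ B.card ∧
      (Q.card : ℝ) * (volume K).toReal ≤ 4 * (volume P).toReal * B.card := by
  classical
  set μ : ℝ := (volume K).toReal with hμ
  set ν : ℝ := (volume P).toReal with hν
  have hμ0 : 0 < μ := ENNReal.toReal_pos hpos.ne' (measure_ne_top _ _)
  have hN : (0 : ℝ) < (2 ^ k : ℝ) ^ d := by positivity
  -- the two counting functions
  set b : (Fin d → UnitAddCircle) → Finset (Fin d → ZMod (2 ^ k)) := fun t =>
    Finset.univ.filter (fun a => emb d k a + t ∈ K) with hb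
  set q : (Fin d → UnitAddCircle) → Finset (Fin d → ZMod (2 ^ k)) := fun t =>
    Finset.univ.filter (fun a => emb d k a + (2 : ℕ) • t ∈ P) with hq
  have hbq : ∀ t, ∀ x ∈ b t, ∀ y ∈ b t, x + y ∈ q t := by
    intro t x hx y hy
    simp only [hb, hq, Finset.mem_filter, Finset.mem_univ, true_and] at hx hy ⊢
    have h1 : emb d k (x + y) + (2 : ℕ) • t = (emb d k x + t) + (emb d k y + t) := by
      rw [map_add, two_nsmul]
      abel
    rw [h1]
    exact hKP _ hx _ hy
  have hcount : ∀ (S : Set (Fin d → UnitAddCircle)) (s : Fin d → UnitAddCircle),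
      ∑ a : Fin d → ZMod (2 ^ k), S.indicator (1 : (Fin d → UnitAddCircle) → ENNReal)
        (emb d k a + s) =
      ((Finset.univ.filter (fun a : Fin d → ZMod (2 ^ k) => emb d k a + s ∈ S)).card : ENNReal) := by
    intro S s
    rw [Finset.card_filter]
    push_cast
    refine Finset.sum_congr rfl fun a _ => ?_
    rw [Set.indicator_apply]
    rfl
  by_contra hcon
  push Not at hcon
  have key : ∀ t, ((b t).card : ℝ) ≤ μ / 4 * (2 ^ k : ℝ) ^ d + μ / (4 * ν) * (q t).card := by
    intro t
    have h1 := hcon t (b t) (q t) (fun a ha => by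
      simp only [hb, Finset.mem_filter, Finset.mem_univ, true_and] at ha
      exact ha) (hbq t)
    by_cases h2 : μ / 4 * (2 ^ k : ℝ) ^ d ≤ (b t).card
    · have h3 := h1 h2
      have hν0 : 0 ≤ ν := ENNReal.toReal_nonneg
      have hνpos : 0 < ν ∨ ν = 0 := by
        rcases hν0.lt_or_eq with h | h
        · exact Or.inl h
        · exact Or.inr h.symm
      rcases hνpos with h4 | h4
      · have h5 : ((b t).card : ℝ) ≤ μ / (4 * ν) * (q t).card := by
          rw [div_mul_eq_mul_div, le_div_iff₀ (by positivity)]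
          linarith
        have h6 : 0 ≤ μ / 4 * (2 ^ k : ℝ) ^ d := by positivity
        linarith
      · exfalso
        -- `P` contains a translate of `K`
        obtain ⟨x, hx⟩ : K.Nonempty := nonempty_of_measure_ne_zero hpos.ne'
        have h5 : volume K ≤ volume P := by
          have h6 : (fun y => x + y) '' K ⊆ P := by
            rintro _ ⟨y, hy, rfl⟩
            exact hKP _ hx _ hy
          have h7 : volume ((fun y => x + y) '' K) = volume K := by
            rw [Set.image_add_left]
            exact measure_preimage_add volume (-x) K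
          rw [← h7]
          exact measure_mono h6
        have h6 := ENNReal.toReal_mono (measure_ne_top _ _) h5
        rw [← hμ, ← hν] at h6
        linarith
    · push Not at h2
      have h3 : 0 ≤ μ / (4 * ν) * (q t).card := by
        have : 0 ≤ ν := ENNReal.toReal_nonneg
        positivity
      linarith
  -- integrate
  have h1 : ∀ t, ∑ a : Fin d → ZMod (2 ^ k), K.indicator
      (1 : (Fin d → UnitAddCircle) → ENNReal) (emb d k a + t) ≤
      ENNReal.ofReal (μ / 4 * (2 ^ k : ℝ) ^ d) + ENNReal.ofReal (μ / (4 * ν)) *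
        ∑ a : Fin d → ZMod (2 ^ k), P.indicator
          (1 : (Fin d → UnitAddCircle) → ENNReal) (emb d k a + (2 : ℕ) • t) := by
    intro t
    rw [hcount, hcount, ← ENNReal.ofReal_natCast, ← ENNReal.ofReal_natCast (n := Finset.card _),
      ← ENNReal.ofReal_mul (by
        have : 0 ≤ ν := ENNReal.toReal_nonneg
        positivity), ← ENNReal.ofReal_add (by positivity) (by
        have : 0 ≤ ν := ENNReal.toReal_nonneg
        positivity)]
    exact ENNReal.ofReal_le_ofReal (key t)
  have h2 := lintegral_mono h1 (μ := (volume : Measure (Fin d → UnitAddCircle)))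
  rw [lintegral_count d k K hK, lintegral_add_left measurable_const, lintegral_const,
    volume_univ_torus, mul_one, lintegral_const_mul' _ _ ENNReal.ofReal_ne_top,
    lintegral_count_two d k P hP] at h2
  have h3 : ENNReal.ofReal (μ / 4 * (2 ^ k : ℝ) ^ d) + ENNReal.ofReal (μ / (4 * ν)) *
      ((((2 ^ k) ^ d : ℕ) : ENNReal) * volume P) ≤
      ENNReal.ofReal (μ / 4 * (2 ^ k : ℝ) ^ d + μ / (4 * ν) * ((2 ^ k : ℝ) ^ d * ν)) := by
    have hν0 : 0 ≤ ν := ENNReal.toReal_nonneg
    rw [ENNReal.ofReal_add (by positivity) (by positivity),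
      ENNReal.ofReal_mul (p := μ / (4 * ν)) (by positivity),
      ENNReal.ofReal_mul (p := (2 ^ k : ℝ) ^ d) (by positivity),
      show ENNReal.ofReal ν = volume P from ENNReal.ofReal_toReal (measure_ne_top _ _)]
    gcongr
    rw [← ENNReal.ofReal_natCast]
    push_cast
    exact le_rfl
  have h4 := h2.trans h3
  have h5 := ENNReal.toReal_mono ENNReal.ofReal_ne_top h4
  have hν0 : 0 ≤ ν := ENNReal.toReal_nonneg
  rw [ENNReal.toReal_ofReal (by positivity), ENNReal.toReal_mul, ENNReal.toReal_natCast,
    ← hμ] at h5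
  push_cast at h5
  have h6 : μ / (4 * ν) * ((2 ^ k : ℝ) ^ d * ν) ≤ μ / 4 * (2 ^ k : ℝ) ^ d := by
    rcases hν0.lt_or_eq with h | h
    · have : μ / (4 * ν) * ((2 ^ k : ℝ) ^ d * ν) = μ / 4 * (2 ^ k : ℝ) ^ d := by
        field_simp
      rw [this]
    · rw [← h]
      simp only [mul_zero, div_zero]
      positivity
  nlinarith

end Pool.Agent.Helper30.DB
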