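import Pool.Agent.Helper30.DB.Fin
import Pool.Agent.Helper30.DB.Limit
import Pool.Agent.Helper36.BP.P2

/-!
# Subtori in `m A - m A` for sets of small doubling
-/

set_option autoImplicit false

open MeasureTheory

namespace Pool.Agent.Helper30.DB

open Pool.Agent.Helper15.BP Pool.Agent.Helper25.BP Pool.Agent.Helper36.BP

/-- a statement for dense sets in finite abelian 2-groups -/
def FinDense (m : ℕ) (E F : ℝ) : Prop :=
  ∀ (G : Type) [AddCommGroup G] [Finite G], (∃ k : ℕ, ∀ x : G, (2 ^ k : ℕ) • x = 0) →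
    ∀ A : Finset G, A.Nonempty → Real.log (Nat.card G) - Real.log A.card ≤ E →
    ∃ V : AddSubgroup G, Real.log (V ⊔ dbl G).index ≤ F ∧
      ∀ v ∈ V, ∃ a b : Fin m → G, (∀ i, a i ∈ A) ∧ (∀ i, b i ∈ A) ∧ v = ∑ i, a i - ∑ i, b i

/-- From dense sets to sets of small doubling, finite groups. -/
theorem fin_double (m : ℕ) {κ : ℝ} (hκ : 0 < κ) (hc : ContrR κ (1 / 2)) (E F : ℝ)
    (hfin : FinDense m E F)
    (G : Type) [AddCommGroup G] [Finite G] (hG : ∃ k : ℕ, ∀ x : G, (2 ^ k : ℕ) • x = 0)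
    (A P : Finset G) (hA : A.Nonempty) (hP : ∀ a ∈ A, ∀ b ∈ A, a + b ∈ P)
    (hE : 2 * (Real.log P.card - Real.log A.card) ≤ E) :
    ∃ V : AddSubgroup G,
      Real.log (V ⊔ dbl G).index ≤ (Real.log (Nat.card G) - Real.log A.card) / κ + F ∧
      ∀ v ∈ V, ∃ a b : Fin m → G, (∀ i, a i ∈ A) ∧ (∀ i, b i ∈ A) ∧
        v = ∑ i, a i - ∑ i, b i := by
  classical
  obtain ⟨V, x, h1, h2, h3⟩ := coset_of_doubling hκ hc hG (A : Set G) (P : Set G)
    (by simpa using hA) (by simpa using hP)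
  rw [Set.ncard_coe_finset] at h2 h3
  rw [Set.ncard_coe_finset] at h3
  have hV2 : ∃ k : ℕ, ∀ v : V, (2 ^ k : ℕ) • v = 0 := by
    obtain ⟨k, hk⟩ := hG
    refine ⟨k, fun v => ?_⟩
    apply Subtype.ext
    rw [AddSubgroup.coe_nsmul]
    exact hk v
  set A' : Finset V := (Set.toFinite (piece (A : Set G) V x)).toFinset with hA'
  have hmem : ∀ v : V, v ∈ A' ↔ x + (v : G) ∈ A := by
    intro v
    rw [hA', Set.Finite.mem_toFinset]
    exact Iff.rfl
  have hcard : A'.card = (piece (A : Set G) V x).ncard := by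
    rw [hA', Set.ncard_eq_toFinset_card _ (Set.toFinite _)]
  obtain ⟨W, hW1, hW2⟩ := hfin V hV2 A' (by
    rw [hA', Set.Finite.toFinset_nonempty]
    exact h1) (by
    rw [hcard]
    linarith)
  refine ⟨W.map V.subtype, ?_, ?_⟩
  · have h4 := index_sub V W
    have h5 : Real.log (V ⊔ dbl G).index ≤
        (Real.log (Nat.card G) - Real.log A.card) / κ := by
      rw [le_div_iff₀ hκ]
      linarith
    linarith
  · rintro v ⟨w, hw, rfl⟩
    obtain ⟨a, b, ha, hb, hab⟩ := hW2 w hw
    refine ⟨fun i => x + (a i : G), fun i => x + (b i : G), fun i => (hmem _).1 (ha i),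
      fun i => (hmem _).1 (hb i), ?_⟩
    rw [hab, Finset.sum_add_distrib, Finset.sum_add_distrib]
    simp only [map_sub, map_sum, AddSubgroup.subtype_apply]
    abel

/-- From dense sets in finite groups to sets of small doubling in tori. -/
theorem torus_double (m : ℕ) {κ : ℝ} (hκ : 0 < κ) (hc : ContrR κ (1 / 2)) (E F : ℝ)
    (hfin : FinDense m E F)
    (d : ℕ) (A : Set (Fin d → UnitAddCircle)) (hA : MeasurableSet A) (hpos : 0 < volume A)
    (K : ℝ) (hK1 : 1 ≤ K)
    (hK : volume {z | ∃ a ∈ A, ∃ b ∈ A, z = a + b} ≤ ENNReal.ofReal K * volume A)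
    (hE : 2 * Real.log (8 * K) ≤ E) :
    HasSub d m A
      (((Real.log 8 + Real.log (1 / (volume A).toReal)) / κ + F) / Real.log 2) := by
  classical
  have hhalf : volume A / 2 < volume A := ENNReal.half_lt_self hpos.ne' (measure_ne_top _ _)
  obtain ⟨S, hSA, hSc, hSlt⟩ := hA.exists_lt_isCompact_of_ne_top (measure_ne_top _ _) hhalf
  set P : Set (Fin d → UnitAddCircle) :=
    (fun p : (Fin d → UnitAddCircle) × (Fin d → UnitAddCircle) => p.1 + p.2) '' (S ×ˢ S) with hPdef
  have hPc : IsCompact P := (hSc.prod hSc).image (continuous_fst.add continuous_snd)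
  have hPm : MeasurableSet P := hPc.isClosed.measurableSet
  have hSm : MeasurableSet S := hSc.isClosed.measurableSet
  have hSP : ∀ a ∈ S, ∀ b ∈ S, a + b ∈ P := fun a ha b hb => ⟨(a, b), ⟨ha, hb⟩, rfl⟩
  have hPsub : P ⊆ {z | ∃ a ∈ A, ∃ b ∈ A, z = a + b} := by
    rintro z ⟨⟨a, b⟩, ⟨ha, hb⟩, rfl⟩
    exact ⟨a, hSA ha, b, hSA hb, rfl⟩
  set α : ℝ := (volume A).toReal with hα
  have hα0 : 0 < α := ENNReal.toReal_pos hpos.ne' (measure_ne_top _ _)
  have hSr : α / 2 < (volume S).toReal := by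
    have h1 := (ENNReal.toReal_lt_toReal (by
      exact (lt_of_lt_of_le hSlt (le_of_lt (measure_lt_top _ _))).ne) (measure_ne_top _ _)).mpr hSlt
    rw [ENNReal.toReal_div] at h1
    exact h1
  have hPr : (volume P).toReal ≤ K * α := by
    have h1 := (measure_mono hPsub).trans hK
    have h2 := ENNReal.toReal_mono (ENNReal.mul_ne_top ENNReal.ofReal_ne_top (measure_ne_top _ _)) h1
    rw [ENNReal.toReal_mul, ENNReal.toReal_ofReal (by linarith)] at h2
    exact h2
  have hSpos : 0 < volume S := lt_of_le_of_lt zero_le hSlt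
  have hlog2 : 0 < Real.log 2 := Real.log_pos (by norm_num)
  choose t B Q h1 h2 h3 h4 using fun k => exists_translate_two d k S P hSm hPm hSP hSpos
  have key : ∀ k, ∃ V : AddSubgroup (Fin d → ZMod (2 ^ k)),
      Real.log (V ⊔ dbl (Fin d → ZMod (2 ^ k))).index ≤
        (Real.log 8 + Real.log (1 / α)) / κ + F ∧
      ∀ v ∈ V, ∃ a b : Fin m → (Fin d → ZMod (2 ^ k)), (∀ i, a i ∈ B k) ∧ (∀ i, b i ∈ B k) ∧
        v = ∑ i, a i - ∑ i, b i := by
    intro k
    have : NeZero (2 ^ k : ℕ) := ⟨by positivity⟩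
    have hpow : (0 : ℝ) < (2 ^ k : ℝ) ^ d := by positivity
    have hB : α / 8 * (2 ^ k : ℝ) ^ d ≤ (B k).card := by
      refine le_trans ?_ (h3 k)
      refine mul_le_mul_of_nonneg_right ?_ hpow.le
      linarith
    have hBpos : (0 : ℝ) < (B k).card := lt_of_lt_of_le (by positivity) hB
    have hBne : (B k).Nonempty := Finset.card_pos.1 (by exact_mod_cast hBpos)
    have hQne : (Q k).Nonempty := by
      obtain ⟨b, hb⟩ := hBne
      exact ⟨b + b, h2 k b hb b hb⟩
    have hQpos : (0 : ℝ) < (Q k).card := by exact_mod_cast hQne.card_pos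
    have hQ : ((Q k).card : ℝ) ≤ 8 * K * (B k).card := by
      have h5 : ((Q k).card : ℝ) * (α / 2) ≤ 4 * (K * α) * (B k).card := by
        calc ((Q k).card : ℝ) * (α / 2) ≤ (Q k).card * (volume S).toReal :=
              mul_le_mul_of_nonneg_left hSr.le hQpos.le
          _ ≤ 4 * (volume P).toReal * (B k).card := h4 k
          _ ≤ 4 * (K * α) * (B k).card := by
              refine mul_le_mul_of_nonneg_right ?_ hBpos.le
              linarith
      have h6 : ((Q k).card : ℝ) * (α / 2) ≤ 8 * K * (B k).card * (α / 2) := by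
        refine h5.trans (le_of_eq ?_)
        ring
      exact le_of_mul_le_mul_right h6 (by positivity)
    obtain ⟨V, hV1, hV2⟩ := fin_double m hκ hc E F hfin (Fin d → ZMod (2 ^ k)) ⟨k, fun x => by
      funext i
      have : ((2 ^ k : ℕ) : ZMod (2 ^ k)) = 0 := ZMod.natCast_self _
      rw [Pi.smul_apply, nsmul_eq_mul, this, zero_mul, Pi.zero_apply]⟩ (B k) (Q k) hBne (h2 k) (by
        have h5 := Real.log_le_log hQpos hQ
        rw [Real.log_mul (by positivity) hBpos.ne'] at h5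
        linarith)
    refine ⟨V, hV1.trans ?_, hV2⟩
    have hcd : (Nat.card (Fin d → ZMod (2 ^ k)) : ℝ) = (2 ^ k : ℝ) ^ d := by
      rw [Nat.card_pi]
      simp
    have h5 := Real.log_le_log (by positivity) hB
    rw [Real.log_mul (by positivity) (by positivity), Real.log_div hα0.ne' (by norm_num)] at h5
    have h6 : Real.log (Nat.card (Fin d → ZMod (2 ^ k))) - Real.log (B k).card ≤
        Real.log 8 + Real.log (1 / α) := by
      rw [hcd, one_div, Real.log_inv]
      linarith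
    have h7 := div_le_div_of_nonneg_right h6 hκ.le
    linarith
  choose V hV1 hV2 using key
  obtain ⟨kk, φ, g1, g2, g3, g4⟩ := limit_core d m
    (((Real.log 8 + Real.log (1 / α)) / κ + F) / Real.log 2) S hSc t B V h1 (by
      intro k
      rw [div_mul_cancel₀ _ hlog2.ne']
      exact hV1 k) hV2
  refine ⟨kk, φ, g1, g2, g3, g4.trans ?_⟩
  rintro y ⟨a, b, ha, hb, hy⟩
  exact ⟨a, b, fun l => hSA (ha l), fun l => hSA (hb l), hy⟩

/-- a slope at which two-fold sums halve the deficiency -/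
theorem exists_half : ∃ κ : ℝ, 0 < κ ∧ κ ≤ 1 ∧ ContrR κ (1 / 2) := by
  obtain ⟨C, c, hC, hc, hc1, h⟩ := contrR_power
  have hC2 : (0 : ℝ) < 1 / (2 * C) := by positivity
  refine ⟨(1 / (2 * C)) ^ (1 / c), Real.rpow_pos_of_pos hC2 _, ?_, ?_⟩
  · refine Real.rpow_le_one hC2.le ?_ (by positivity)
    rw [div_le_one (by positivity)]
    linarith
  · have h1 := h ((1 / (2 * C)) ^ (1 / c)) (Real.rpow_pos_of_pos hC2 _) (by
      refine Real.rpow_le_one hC2.le ?_ (by positivity)
      rw [div_le_one (by positivity)]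
      linarith)
    rw [← Real.rpow_mul hC2.le, one_div_mul_cancel hc.ne', Real.rpow_one] at h1
    have h2 : C * (1 / (2 * C)) = 1 / 2 := by
      field_simp
    rwa [h2] at h1

end Pool.Agent.Helper30.DB
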